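import Pool.Agent.Helper28.ND.Spec3
import Pool.Agent.Helper98.ND.IBP

/-!
# MP_0c2f33_an, part BETA: properties of the elementary drift.
-/

set_option autoImplicit false

namespace Pool.Agent.Helper11.ND.BETA

open MeasureTheory Set Filter Topology Pool.Agent.Helper28.ND
open scoped ENNReal NNReal

noncomputable section

/-- the odd profile -/
def h1 (N : ℕ) (z : ℝ) : ℝ := eta N z - eta N (-z)

lemma chi_eq (r : ℝ) (N : ℕ) (y : ℝ) : chi r N y = h1 N (sd y / r) := rfl

lemma eta_nonneg (N : ℕ) (z : ℝ) : 0 ≤ eta N z :=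
  mul_nonneg (Real.smoothTransition.nonneg _) (Real.smoothTransition.nonneg _)

lemma eta_le_one (N : ℕ) (z : ℝ) : eta N z ≤ 1 :=
  mul_le_one₀ (Real.smoothTransition.le_one _) (Real.smoothTransition.nonneg _)
    (Real.smoothTransition.le_one _)

lemma eta_of_nonpos (N : ℕ) (z : ℝ) (hz : z ≤ 0) : eta N z = 0 := by
  unfold eta
  rw [Real.smoothTransition.zero_of_nonpos, zero_mul]
  have : (0 : ℝ) ≤ N := Nat.cast_nonneg N
  nlinarith

lemma eta_of_one_le (N : ℕ) (z : ℝ) (hz : 1 ≤ z) : eta N z = 0 := by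
  unfold eta
  rw [Real.smoothTransition.zero_of_nonpos (x := 2 - 2 * z), mul_zero]
  linarith

lemma eta_contDiff (N : ℕ) : ContDiff ℝ 3 (eta N) := by
  unfold eta
  apply ContDiff.mul
  · exact (Real.smoothTransition.contDiff (n := 3)).comp (by fun_prop)
  · exact (Real.smoothTransition.contDiff (n := 3)).comp (by fun_prop)

lemma h1_contDiff (N : ℕ) : ContDiff ℝ 3 (h1 N) := by
  unfold h1
  exact (eta_contDiff N).sub ((eta_contDiff N).comp contDiff_neg)

lemma h1_neg (N : ℕ) (z : ℝ) : h1 N (-z) = - h1 N z := by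
  unfold h1; rw [neg_neg]; ring

lemma h1_zero_of (N : ℕ) (z : ℝ) (hz : 1 ≤ |z|) : h1 N z = 0 := by
  unfold h1
  rcases le_abs.1 hz with h | h
  · rw [eta_of_one_le N z h, eta_of_nonpos N (-z) (by linarith)]; ring
  · rw [eta_of_nonpos N z (by linarith), eta_of_one_le N (-z) h]; ring

lemma h1_nonneg (N : ℕ) (z : ℝ) (hz : 0 ≤ z) : 0 ≤ h1 N z := by
  unfold h1
  rw [eta_of_nonpos N (-z) (by linarith)]
  have := eta_nonneg N z
  linarith

lemma h1_nonpos (N : ℕ) (z : ℝ) (hz : z ≤ 0) : h1 N z ≤ 0 := by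
  unfold h1
  rw [eta_of_nonpos N z hz]
  have := eta_nonneg N (-z)
  linarith

lemma h1_le_one (N : ℕ) (z : ℝ) : h1 N z ≤ 1 := by
  unfold h1
  have := eta_nonneg N (-z)
  have := eta_le_one N z
  linarith

lemma abs_h1_le_one (N : ℕ) (z : ℝ) : |h1 N z| ≤ 1 := by
  rw [abs_le]
  refine ⟨?_, h1_le_one N z⟩
  have := h1_le_one N (-z)
  rw [h1_neg] at this
  linarith

lemma h1_one (N : ℕ) (hN : 2 ≤ N) (z : ℝ) (h : 1 / (N : ℝ) ≤ z) (h' : z ≤ 1 / 2) :
    h1 N z = 1 := by
  have hN' : (0 : ℝ) < N := by exact_mod_cast (by omega : 0 < N)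
  have hz : 0 < z := lt_of_lt_of_le (by positivity) h
  unfold h1
  rw [eta_of_nonpos N (-z) (by linarith)]
  unfold eta
  rw [Real.smoothTransition.one_of_one_le, Real.smoothTransition.one_of_one_le]
  · ring
  · linarith
  · rw [div_le_iff₀ hN'] at h
    nlinarith

lemma deriv_h1_zero (N : ℕ) (z : ℝ) (hz : 1 ≤ |z|) : deriv (h1 N) z = 0 := by
  rcases le_abs.1 hz with h | h
  · apply IsLocalMin.deriv_eq_zero
    filter_upwards [lt_mem_nhds (show (0 : ℝ) < z by linarith)] with w hw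
    rw [h1_zero_of N z hz]
    exact h1_nonneg N w hw.le
  · apply IsLocalMax.deriv_eq_zero
    filter_upwards [gt_mem_nhds (show z < (0 : ℝ) by linarith)] with w hw
    rw [h1_zero_of N z hz]
    exact h1_nonpos N w hw.le

lemma deriv_h1_one (N : ℕ) (hN : 2 ≤ N) (z : ℝ) (h : 1 / (N : ℝ) ≤ z) (h' : z ≤ 1 / 2) :
    deriv (h1 N) z = 0 := by
  apply IsLocalMax.deriv_eq_zero
  filter_upwards with w
  rw [h1_one N hN z h h']
  exact h1_le_one N w

lemma deriv_h1_bdd (N : ℕ) : ∃ C : ℝ, 1 ≤ C ∧ ∀ z, |deriv (h1 N) z| ≤ C := by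
  have hc : Continuous (deriv (h1 N)) := (h1_contDiff N).continuous_deriv (by norm_num)
  obtain ⟨C, hC⟩ := (isCompact_Icc (a := (-1 : ℝ)) (b := 1)).exists_bound_of_continuousOn
    hc.continuousOn
  refine ⟨max C 1, le_max_right _ _, fun z => ?_⟩
  by_cases hz : |z| ≤ 1
  · have := hC z (abs_le.1 hz)
    rw [Real.norm_eq_abs] at this
    exact this.trans (le_max_left _ _)
  · rw [deriv_h1_zero N z (le_of_lt (not_le.1 hz)), abs_zero]
    exact zero_le_one.trans (le_max_right _ _)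

/-! ### the signed distance -/

lemma abs_sd_le (y : ℝ) : |sd y| ≤ 1 / 4 := by
  have h := abs_sub_round (2 * y)
  unfold sd
  have : y - (round (2 * y) : ℝ) / 2 = (2 * y - round (2 * y)) / 2 := by ring
  rw [this, abs_div]
  norm_num
  linarith

lemma sd_eq (y : ℝ) (k : ℤ) (h : |y - (k : ℝ) / 2| < 1 / 4) : sd y = y - (k : ℝ) / 2 := by
  have h2 : round (2 * y) = k := by
    rw [round_eq, Int.floor_eq_iff]
    rw [abs_lt] at h
    constructor <;> linarith [h.1, h.2]
  unfold sd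
  rw [h2]

lemma chi_loc (r : ℝ) (hr : 0 < r) (hr' : r ≤ 1 / 8) (N : ℕ) (y : ℝ) (k : ℤ)
    (h : |y - (k : ℝ) / 2| < 3 / 8) : chi r N y = h1 N ((y - (k : ℝ) / 2) / r) := by
  rw [chi_eq]
  by_cases h4 : |y - (k : ℝ) / 2| < 1 / 4
  · rw [sd_eq y k h4]
  · push Not at h4
    have key : ∀ z : ℝ, 1 / 8 ≤ |z| → h1 N (z / r) = 0 := by
      intro z hz
      apply h1_zero_of
      rw [abs_div, abs_of_pos hr, le_div_iff₀ hr]
      linarith
    have e1 : h1 N ((y - (k : ℝ) / 2) / r) = 0 := key _ (by linarith)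
    rw [e1]
    apply key
    by_cases hk : round (2 * y) = k
    · unfold sd
      rw [hk]
      linarith
    · have h5 : (1 : ℝ) ≤ |((round (2 * y) - k : ℤ) : ℝ)| := by
        rw [← Int.cast_abs]
        exact_mod_cast Int.one_le_abs (sub_ne_zero.2 hk)
      have h6 : ((round (2 * y) - k : ℤ) : ℝ) = 2 * (y - (k : ℝ) / 2) - 2 * sd y := by
        unfold sd
        push_cast
        ring
      rw [h6] at h5
      have h7 := abs_sub (2 * (y - (k : ℝ) / 2)) (2 * sd y)
      rw [abs_mul, abs_mul, abs_two] at h7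
      linarith

lemma near (y : ℝ) : |y - (round (2 * y) : ℝ) / 2| ≤ 1 / 4 := abs_sd_le y

lemma chi_eventually (r : ℝ) (hr : 0 < r) (hr' : r ≤ 1 / 8) (N : ℕ) (y : ℝ) :
    chi r N =ᶠ[𝓝 y] fun w => h1 N ((w - (round (2 * y) : ℝ) / 2) / r) := by
  have hc : Continuous fun w : ℝ => |w - (round (2 * y) : ℝ) / 2| := by fun_prop
  have hlt : |y - (round (2 * y) : ℝ) / 2| < 3 / 8 := lt_of_le_of_lt (near y) (by norm_num)
  filter_upwards [hc.continuousAt.eventually_lt continuousAt_const hlt] with w hw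
  exact chi_loc r hr hr' N w _ hw

lemma chi_contDiff (r : ℝ) (hr : 0 < r) (hr' : r ≤ 1 / 8) (N : ℕ) : ContDiff ℝ 3 (chi r N) := by
  rw [contDiff_iff_contDiffAt]
  intro y
  apply ContDiffAt.congr_of_eventuallyEq _ (chi_eventually r hr hr' N y)
  have : ContDiff ℝ 3 (fun w : ℝ => h1 N ((w - (round (2 * y) : ℝ) / 2) / r)) :=
    (h1_contDiff N).comp (by fun_prop)
  exact this.contDiffAt

lemma deriv_chi (r : ℝ) (hr : 0 < r) (hr' : r ≤ 1 / 8) (N : ℕ) (y : ℝ) :
    deriv (chi r N) y = deriv (h1 N) (sd y / r) / r := by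
  rw [(chi_eventually r hr hr' N y).deriv_eq]
  have hd : DifferentiableAt ℝ (h1 N) (sd y / r) :=
    ((h1_contDiff N).differentiable (by norm_num)).differentiableAt
  have hl : HasDerivAt (fun w : ℝ => (w - (round (2 * y) : ℝ) / 2) / r) (1 / r) y :=
    ((hasDerivAt_id y).sub_const _).div_const r
  have := HasDerivAt.comp (h₂ := h1 N) y (by exact hd.hasDerivAt) hl
  have h2 := this.deriv
  simp only [Function.comp_def] at h2
  rw [h2]
  ring

lemma chi_add (r : ℝ) (N : ℕ) (y : ℝ) (k : ℤ) : chi r N (y + (k : ℝ) / 2) = chi r N y := by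
  rw [chi_eq, chi_eq]
  congr 2
  unfold sd
  have : 2 * (y + (k : ℝ) / 2) = 2 * y + (k : ℝ) := by ring
  rw [this, round_add_intCast]
  push_cast
  ring

lemma chi_neg (r : ℝ) (hr : 0 < r) (hr' : r ≤ 1 / 8) (N : ℕ) (y : ℝ) :
    chi r N (-y) = - chi r N y := by
  have h0 : |y - (round (2 * y) : ℝ) / 2| < 3 / 8 := lt_of_le_of_lt (near y) (by norm_num)
  have h1' : |-y - ((-round (2 * y) : ℤ) : ℝ) / 2| < 3 / 8 := by
    rw [← abs_neg] at h0
    convert h0 using 2
    push_cast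
    ring
  rw [chi_loc r hr hr' N y _ h0, chi_loc r hr hr' N (-y) _ h1', ← h1_neg]
  congr 1
  push_cast
  ring

lemma deriv_chi_add (r : ℝ) (N : ℕ) (y : ℝ) (k : ℤ) :
    deriv (chi r N) (y + (k : ℝ) / 2) = deriv (chi r N) y := by
  rw [← deriv_comp_add_const]
  congr 1
  funext w
  exact chi_add r N w k

lemma deriv_chi_neg (r : ℝ) (hr : 0 < r) (hr' : r ≤ 1 / 8) (N : ℕ) (y : ℝ) :
    deriv (chi r N) (-y) = deriv (chi r N) y := by
  have h := deriv_comp_neg (f := chi r N) y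
  have h2 : (fun x => chi r N (-x)) = fun x => - chi r N x := by
    funext w; exact chi_neg r hr hr' N w
  rw [h2, deriv.fun_neg] at h
  linarith

lemma half_sub (y : ℝ) : (1 / 2 - y : ℝ) = -y + ((1 : ℤ) : ℝ) / 2 := by push_cast; ring

lemma bet_shift (r : ℝ) (hr : r ≠ 0) (N : ℕ) (x y : Fin 2 → ℝ) (k m : ℤ) (h0 : y 0 = x 0 + k)
    (h1 : y 1 = x 1 + m * r) : bet r N y = bet r N x := by
  have e0 : y 0 = x 0 + ((2 * k : ℤ) : ℝ) / 2 := by rw [h0]; push_cast; ring
  have e1 : 2 * Real.pi * y 1 / r = 2 * Real.pi * x 1 / r + m * (2 * Real.pi) := by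
    rw [h1]; field_simp
  unfold bet
  rw [e0, e1, chi_add, deriv_chi_add, Real.cos_add_int_mul_two_pi, Real.sin_add_int_mul_two_pi]

lemma bet_zero (r : ℝ) (N : ℕ) (x : Fin 2 → ℝ) :
    bet r N x 0 = chi r N (x 0) * Real.cos (2 * Real.pi * x 1 / r) := rfl

lemma bet_one (r : ℝ) (N : ℕ) (x : Fin 2 → ℝ) :
    bet r N x 1 = -(r / (2 * Real.pi)) * deriv (chi r N) (x 0) * Real.sin (2 * Real.pi * x 1 / r) :=
  rfl

lemma bet_zero_contDiff (r : ℝ) (hr : 0 < r) (hr' : r ≤ 1 / 8) (N : ℕ) :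
    ContDiff ℝ 1 (fun x : Fin 2 → ℝ => bet r N x 0) := by
  simp only [bet_zero]
  apply ContDiff.mul
  · exact ((chi_contDiff r hr hr' N).of_le (by norm_num)).comp (contDiff_apply ℝ ℝ 0)
  · exact Real.contDiff_cos.comp (by fun_prop)

lemma deriv_chi_contDiff (r : ℝ) (hr : 0 < r) (hr' : r ≤ 1 / 8) (N : ℕ) :
    ContDiff ℝ 1 (deriv (chi r N)) := by
  have h := chi_contDiff r hr hr' N
  have h2 : ContDiff ℝ (1 + 1) (chi r N) := h.of_le (by norm_num)
  exact (contDiff_succ_iff_deriv.1 h2).2.2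

lemma bet_one_contDiff (r : ℝ) (hr : 0 < r) (hr' : r ≤ 1 / 8) (N : ℕ) :
    ContDiff ℝ 1 (fun x : Fin 2 → ℝ => bet r N x 1) := by
  simp only [bet_one]
  apply ContDiff.mul
  · apply ContDiff.mul contDiff_const
    exact (deriv_chi_contDiff r hr hr' N).comp (contDiff_apply ℝ ℝ 0)
  · exact Real.contDiff_sin.comp (by fun_prop)

lemma pd_zero (r : ℝ) (hr : 0 < r) (hr' : r ≤ 1 / 8) (N : ℕ) (x : Fin 2 → ℝ) :
    pd 0 (fun x : Fin 2 → ℝ => bet r N x 0) x
      = deriv (chi r N) (x 0) * Real.cos (2 * Real.pi * x 1 / r) := by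
  unfold pd
  have hd : DifferentiableAt ℝ (fun x : Fin 2 → ℝ => bet r N x 0) x :=
    ((bet_zero_contDiff r hr hr' N).differentiable (by norm_num)).differentiableAt
  have h := hd.hasFDerivAt.hasLineDerivAt (Pi.single (0 : Fin 2) (1 : ℝ))
  have h2 : HasLineDerivAt ℝ (fun x : Fin 2 → ℝ => bet r N x 0)
      (deriv (chi r N) (x 0) * Real.cos (2 * Real.pi * x 1 / r)) x (Pi.single (0 : Fin 2) 1) := by
    unfold HasLineDerivAt
    have e : (fun t : ℝ => bet r N (x + t • Pi.single (0 : Fin 2) (1 : ℝ)) 0)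
        = fun t => chi r N (t + x 0) * Real.cos (2 * Real.pi * x 1 / r) := by
      funext t
      rw [bet_zero]
      simp [add_comm]
    rw [e]
    apply HasDerivAt.mul_const
    have hc : HasDerivAt (chi r N) (deriv (chi r N) (x 0)) (0 + x 0) := by
      rw [zero_add]
      exact (((chi_contDiff r hr hr' N).differentiable (by norm_num)).differentiableAt).hasDerivAt
    exact hc.comp_add_const 0 (x 0)
  exact h.unique h2

lemma pd_one (r : ℝ) (hr : 0 < r) (hr' : r ≤ 1 / 8) (N : ℕ) (x : Fin 2 → ℝ) :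
    pd 1 (fun x : Fin 2 → ℝ => bet r N x 1) x
      = - (deriv (chi r N) (x 0) * Real.cos (2 * Real.pi * x 1 / r)) := by
  unfold pd
  have hd : DifferentiableAt ℝ (fun x : Fin 2 → ℝ => bet r N x 1) x :=
    ((bet_one_contDiff r hr hr' N).differentiable (by norm_num)).differentiableAt
  have h := hd.hasFDerivAt.hasLineDerivAt (Pi.single (1 : Fin 2) (1 : ℝ))
  have h2 : HasLineDerivAt ℝ (fun x : Fin 2 → ℝ => bet r N x 1)
      (- (deriv (chi r N) (x 0) * Real.cos (2 * Real.pi * x 1 / r))) x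
      (Pi.single (1 : Fin 2) 1) := by
    unfold HasLineDerivAt
    have e : (fun t : ℝ => bet r N (x + t • Pi.single (1 : Fin 2) (1 : ℝ)) 1)
        = fun t => -(r / (2 * Real.pi)) * deriv (chi r N) (x 0)
            * Real.sin (2 * Real.pi * (x 1 + t) / r) := by
      funext t
      rw [bet_one]
      simp
    rw [e]
    have hl : HasDerivAt (fun t : ℝ => 2 * Real.pi * (x 1 + t) / r) (2 * Real.pi / r) 0 := by
      have h3 : HasDerivAt (fun t : ℝ => 2 * Real.pi * (x 1 + t)) (2 * Real.pi * 1) 0 :=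
        ((hasDerivAt_id (0 : ℝ)).const_add (x 1)).const_mul _
      have h4 := h3.div_const r
      rwa [mul_one] at h4
    have h5 := (hl.sin).const_mul (-(r / (2 * Real.pi)) * deriv (chi r N) (x 0))
    have hpi := Real.pi_ne_zero
    have hv : -(r / (2 * Real.pi)) * deriv (chi r N) (x 0)
        * (Real.cos (2 * Real.pi * (x 1 + 0) / r) * (2 * Real.pi / r))
        = - (deriv (chi r N) (x 0) * Real.cos (2 * Real.pi * x 1 / r)) := by
      rw [add_zero]
      field_simp
    rw [hv] at h5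
    exact h5
  exact h.unique h2

lemma pd_mul (i : Fin 2) (f g : (Fin 2 → ℝ) → ℝ) (x : Fin 2 → ℝ) (hf : DifferentiableAt ℝ f x)
    (hg : DifferentiableAt ℝ g x) :
    pd i (fun x => f x * g x) x = f x * pd i g x + pd i f x * g x := by
  unfold pd
  rw [fderiv_fun_mul hf hg]
  simp
  ring

lemma divfree (n : ℕ) (N : ℕ) (ζ : (Fin 2 → ℝ) → ℝ) (hz : ContDiff ℝ 1 ζ)
    (hp : Per ζ) (hper : Per (bet (1 / (n : ℝ)) N)) (hr : 0 < 1 / (n : ℝ))
    (hr' : 1 / (n : ℝ) ≤ 1 / 8) :
    ∫ x in Q 2, ∑ i, bet (1 / (n : ℝ)) N x i * pd i ζ x = 0 := by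
  set r : ℝ := 1 / (n : ℝ) with hrd
  have hb : ∀ i : Fin 2, ContDiff ℝ 1 (fun x : Fin 2 → ℝ => bet r N x i) := by
    intro i
    fin_cases i
    · exact bet_zero_contDiff r hr hr' N
    · exact bet_one_contDiff r hr hr' N
  have hG : ∀ i : Fin 2, ContDiff ℝ 1 (fun x : Fin 2 → ℝ => bet r N x i * ζ x) :=
    fun i => (hb i).mul hz
  have hGp : ∀ i : Fin 2, Per (fun x : Fin 2 → ℝ => bet r N x i * ζ x) := by
    intro i x k
    show bet r N (fun j => x j + (k j : ℝ)) i * ζ (fun j => x j + (k j : ℝ)) = _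
    rw [hper x k, hp x k]
  have hI : ∀ i : Fin 2, ∫ x in Q 2, pd i (fun x : Fin 2 → ℝ => bet r N x i * ζ x) x = 0 :=
    fun i => Pool.Agent.Helper98.ND.IBP.main 2 _ (hG i) (hGp i) i
  have hint : ∀ i : Fin 2, IntegrableOn
      (fun x => pd i (fun x : Fin 2 → ℝ => bet r N x i * ζ x) x) (Q 2) := by
    intro i
    have hc : Continuous (fun x => pd i (fun x : Fin 2 → ℝ => bet r N x i * ζ x) x) := by
      unfold pd
      exact ((hG i).continuous_fderiv (by norm_num)).clm_apply continuous_const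
    have hK : IsCompact (Set.pi Set.univ (fun _ : Fin 2 => Set.Icc (0 : ℝ) 1)) :=
      isCompact_univ_pi fun _ => isCompact_Icc
    apply (hc.continuousOn.integrableOn_compact hK).mono_set
    exact Set.pi_mono fun _ _ => Set.Ioc_subset_Icc_self
  have hsum : ∀ x : Fin 2 → ℝ, ∑ i, bet r N x i * pd i ζ x
      = pd 0 (fun x : Fin 2 → ℝ => bet r N x 0 * ζ x) x
        + pd 1 (fun x : Fin 2 → ℝ => bet r N x 1 * ζ x) x := by
    intro x
    have hzd : DifferentiableAt ℝ ζ x := (hz.differentiable (by norm_num)).differentiableAt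
    rw [pd_mul 0 _ ζ x (((hb 0).differentiable (by norm_num)).differentiableAt) hzd,
      pd_mul 1 _ ζ x (((hb 1).differentiable (by norm_num)).differentiableAt) hzd,
      pd_zero r hr hr' N x, pd_one r hr hr' N x, Fin.sum_univ_two]
    ring
  simp only [hsum]
  rw [integral_add (hint 0) (hint 1), hI 0, hI 1, add_zero]

lemma vol (r : ℝ) (hr : 0 < r) (hr' : r ≤ 1 / 8) :
    volume {x : Fin 2 → ℝ | x ∈ Q 2 ∧ |sd (x 0)| < r} ≤ ENNReal.ofReal (4 * r) := by
  set A : Set ℝ := {y : ℝ | y ∈ Ioc (0 : ℝ) 1 ∧ |sd y| < r} with hA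
  have h1 : {x : Fin 2 → ℝ | x ∈ Q 2 ∧ |sd (x 0)| < r}
      ⊆ Set.pi univ (fun i : Fin 2 => if i = 0 then A else Ioc (0 : ℝ) 1) := by
    intro x hx i _
    obtain ⟨hx1, hx2⟩ := hx
    by_cases hi : i = 0
    · subst hi
      show x 0 ∈ (if (0 : Fin 2) = 0 then A else Ioc (0 : ℝ) 1)
      rw [if_pos rfl]
      exact ⟨hx1 0 (mem_univ _), hx2⟩
    · show x i ∈ (if i = 0 then A else Ioc (0 : ℝ) 1)
      rw [if_neg hi]
      exact hx1 i (mem_univ _)
  refine (measure_mono h1).trans ?_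
  rw [volume_pi_pi, Fin.prod_univ_two]
  rw [if_pos rfl, if_neg (by decide)]
  rw [Real.volume_Ioc, sub_zero, ENNReal.ofReal_one, mul_one]
  have h2 : A ⊆ Ioc 0 r ∪ (Ioo (1 / 2 - r) (1 / 2 + r) ∪ Ioc (1 - r) 1) := by
    intro y hy
    obtain ⟨⟨hy0, hy1⟩, hy2⟩ := hy
    have hk : sd y = y - (round (2 * y) : ℝ) / 2 := rfl
    rw [abs_lt] at hy2
    set k := round (2 * y) with hkd
    have hk1 : (k : ℝ) < 3 := by linarith [hy2.1, hy2.2]
    have hk0 : (-1 : ℝ) < k := by linarith [hy2.1, hy2.2]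
    have hk1' : k < 3 := by exact_mod_cast hk1
    have hk0' : -1 < k := by exact_mod_cast hk0
    have hcase : k = 0 ∨ k = 1 ∨ k = 2 := by omega
    rcases hcase with h | h | h
    · left
      rw [h] at hk
      push_cast at hk
      constructor <;> linarith [hy2.1, hy2.2]
    · right; left
      rw [h] at hk
      push_cast at hk
      constructor <;> linarith [hy2.1, hy2.2]
    · right; right
      rw [h] at hk
      push_cast at hk
      constructor <;> linarith [hy2.1, hy2.2]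
  refine (measure_mono h2).trans ?_
  refine (measure_union_le _ _).trans ?_
  refine (add_le_add le_rfl (measure_union_le _ _)).trans ?_
  rw [Real.volume_Ioc, Real.volume_Ioo, Real.volume_Ioc, ← ENNReal.ofReal_add (by linarith)
    (by linarith), ← ENNReal.ofReal_add (by linarith) (by linarith)]
  apply ENNReal.ofReal_le_ofReal
  linarith

theorem main : S_BETA := by
  intro N hN
  obtain ⟨C, hC1, hC⟩ := deriv_h1_bdd N
  refine ⟨C, hC1, ?_⟩
  intro n hn
  have hnr : (0 : ℝ) < n := by exact_mod_cast (by omega : 0 < n)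
  have hr : 0 < 1 / (n : ℝ) := by positivity
  have hr' : 1 / (n : ℝ) ≤ 1 / 8 := by
    apply one_div_le_one_div_of_le (by norm_num)
    exact_mod_cast hn
  have hper : Per (bet (1 / (n : ℝ)) N) := by
    intro x k
    apply bet_shift (1 / (n : ℝ)) hr.ne' N _ _ (k 0) (k 1 * n)
    · rfl
    · show x 1 + (k 1 : ℝ) = _
      push_cast
      field_simp
  refine ⟨?_, hper, ?_, ?_, ?_, ?_, ?_, ?_, ?_⟩
  · rw [continuous_pi_iff]
    intro i
    fin_cases i
    · exact (bet_zero_contDiff _ hr hr' N).continuous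
    · exact (bet_one_contDiff _ hr hr' N).continuous
  · constructor
    · intro x
      constructor
      · rw [bet_zero, bet_zero]
        simp only [Matrix.cons_val_zero, Matrix.cons_val_one]
        rw [chi_neg _ hr hr']
        ring
      · rw [bet_one, bet_one]
        simp only [Matrix.cons_val_zero, Matrix.cons_val_one]
        rw [deriv_chi_neg _ hr hr']
    · intro x
      constructor
      · rw [bet_zero, bet_zero]
        simp only [Matrix.cons_val_zero, Matrix.cons_val_one]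
        rw [half_sub, chi_add, chi_neg _ hr hr']
        ring
      · rw [bet_one, bet_one]
        simp only [Matrix.cons_val_zero, Matrix.cons_val_one]
        rw [half_sub, deriv_chi_add, deriv_chi_neg _ hr hr']
  · intro x
    constructor
    · rw [bet_zero, abs_mul, chi_eq]
      exact mul_le_one₀ (abs_h1_le_one _ _) (abs_nonneg _) (Real.abs_cos_le_one _)
    · rw [bet_one, deriv_chi _ hr hr', abs_mul, abs_mul, abs_neg, abs_div (deriv _ _),
        abs_of_pos hr, abs_of_pos (show 0 < 1 / (n : ℝ) / (2 * Real.pi) by positivity)]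
      have h1' := hC (sd (x 0) / (1 / (n : ℝ)))
      have h2' := Real.abs_sin_le_one (2 * Real.pi * x 1 / (1 / (n : ℝ)))
      have h3' : 1 / (n : ℝ) / (2 * Real.pi) * (|deriv (h1 N) (sd (x 0) / (1 / (n : ℝ)))| / (1 / (n : ℝ)))
          = |deriv (h1 N) (sd (x 0) / (1 / (n : ℝ)))| / (2 * Real.pi) := by
        field_simp
      rw [h3']
      have hpi : 1 ≤ 2 * Real.pi := by linarith [Real.pi_gt_three]
      have h4' : |deriv (h1 N) (sd (x 0) / (1 / (n : ℝ)))| / (2 * Real.pi) ≤ C :=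
        (div_le_self (abs_nonneg _) hpi).trans h1'
      calc _ ≤ C * 1 := mul_le_mul h4' h2' (abs_nonneg _) (by linarith)
        _ = C := mul_one C
  · intro x
    apply bet_shift (1 / (n : ℝ)) hr.ne' N _ _ 0 1
    · simp
    · simp
  · intro x hx
    have ha : 1 ≤ |sd (x 0) / (1 / (n : ℝ))| := by
      rw [abs_div, abs_of_pos hr, le_div_iff₀ hr, one_mul]
      exact hx
    funext i
    fin_cases i
    · show bet _ N x 0 = 0
      rw [bet_zero, chi_eq, h1_zero_of N _ ha, zero_mul]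
    · show bet _ N x 1 = 0
      rw [bet_one, deriv_chi _ hr hr', deriv_h1_zero N _ ha]
      simp
  · intro x hx hx1 hx2
    obtain ⟨hx3, hx4, -, -⟩ := hx
    have hsd : sd (x 0) = x 0 := by
      have := sd_eq (x 0) 0 (by push_cast; rw [zero_div, sub_zero, abs_of_pos hx3]; exact hx4)
      rw [this]; simp
    have hNr : (0 : ℝ) < N := by exact_mod_cast (by omega : 0 < N)
    have ha : 1 / (N : ℝ) ≤ sd (x 0) / (1 / (n : ℝ)) := by
      rw [hsd, le_div_iff₀ hr]
      calc 1 / (N : ℝ) * (1 / (n : ℝ)) = 1 / (n : ℝ) / N := by ring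
        _ ≤ x 0 := hx1
    have hb : sd (x 0) / (1 / (n : ℝ)) ≤ 1 / 2 := by
      rw [hsd, div_le_iff₀ hr]
      linarith
    constructor
    · rw [bet_zero, chi_eq, h1_one N hN _ ha hb, one_mul]
    · rw [bet_one, deriv_chi _ hr hr', deriv_h1_one N hN _ ha hb]
      simp
  · intro ζ hz hp
    exact divfree n N ζ hz hp hper hr hr'
  · have := vol (1 / (n : ℝ)) hr hr'
    rwa [mul_one_div] at this

end

end Pool.Agent.Helper11.ND.BETA
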